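import Mathlib

/-!
# A rational map of degree at least two over an algebraically closed field of characteristic zero
# has infinitely many preperiodic points

The set of the preperiodic points is completely invariant. If it is finite then all its points are
totally ramified, so that it has at most two elements. But all the finite fixed points are then simple
roots of the polynomial of the fixed points, which gives at least three elements.
-/

set_option autoImplicit false

namespace Run7.h830.SF

open Polynomial

/-- the self-map of the projective line -/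
noncomputable def mp {K : Type*} [Field K] (p q : K[X]) (d : ℕ) : Option K → Option K
  | some x => by classical exact if q.eval x = 0 then none else some (p.eval x / q.eval x)
  | none => by classical exact if q.coeff d = 0 then none else some (p.coeff d / q.coeff d)

/-- the first coordinate of the equation of a point -/
def v1 {K : Type*} [Field K] : Option K → K
  | some _ => 1
  | none => 0

/-- the second coordinate of the equation of a point -/
def v2 {K : Type*} [Field K] : Option K → K
  | some b => -b
  | none => 1

/-- the polynomial whose roots are the preimages of a point -/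
noncomputable def T {K : Type*} [Field K] (p q : K[X]) (y : Option K) : K[X] :=
  C (v1 y) * p + C (v2 y) * q

section

variable {K : Type*} [Field K] {p q : K[X]} {d : ℕ}

lemma T_some (b : K) : T p q (some b) = p - C b * q := by
  simp [T, v1, v2, sub_eq_add_neg]

lemma T_none : T p q none = q := by
  simp [T, v1, v2]

lemma v_det {y y' : Option K} (h : y ≠ y') : v1 y * v2 y' - v2 y * v1 y' ≠ 0 := by
  cases y with
  | none =>
    cases y' with
    | none => exact absurd rfl h
    | some b => simp [v1, v2]
  | some a =>
    cases y' with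
    | none => simp [v1, v2]
    | some b =>
      intro h0
      apply h
      simp only [v1, v2, one_mul, mul_one] at h0
      have : a = b := by linear_combination h0
      rw [this]

lemma T_rel (y y' y'' : Option K) :
    C (v1 y' * v2 y'' - v2 y' * v1 y'') * T p q y + C (v1 y'' * v2 y - v2 y'' * v1 y) * T p q y' +
      C (v1 y * v2 y' - v2 y * v1 y') * T p q y'' = 0 := by
  unfold T
  simp only [C_sub, C_mul]
  ring

lemma not_both (hco : IsCoprime p q) (a : K) (h1 : p.eval a = 0) (h2 : q.eval a = 0) : False := by
  obtain ⟨u, w, h⟩ := hco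
  have := congrArg (eval a) h
  rw [eval_add, eval_mul, eval_mul, h1, h2, mul_zero, mul_zero, add_zero, eval_one] at this
  exact zero_ne_one this

lemma fib_some (hco : IsCoprime p q) (a : K) (y : Option K) :
    mp p q d (some a) = y ↔ (T p q y).eval a = 0 := by
  classical
  by_cases hq : q.eval a = 0
  · have h1 : mp p q d (some a) = none := by
      unfold mp
      exact if_pos hq
    rw [h1]
    cases y with
    | none => simp [T_none, hq]
    | some b =>
      rw [T_some]
      constructor
      · intro h
        cases h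
      · intro h
        exfalso
        rw [eval_sub, eval_mul, hq, mul_zero, sub_zero] at h
        exact not_both hco a h hq
  · have h1 : mp p q d (some a) = some (p.eval a / q.eval a) := by
      unfold mp
      exact if_neg hq
    rw [h1]
    cases y with
    | none =>
      rw [T_none]
      constructor
      · intro h
        cases h
      · intro h
        exact absurd h hq
    | some b =>
      rw [T_some, Option.some.injEq, div_eq_iff hq, eval_sub, eval_mul, eval_C, sub_eq_zero]

lemma fib_none (hl : p.coeff d ≠ 0 ∨ q.coeff d ≠ 0) (y : Option K) :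
    mp p q d none = y ↔ (T p q y).coeff d = 0 := by
  classical
  by_cases hq : q.coeff d = 0
  · have h1 : mp p q d none = none := by
      unfold mp
      exact if_pos hq
    have hp : p.coeff d ≠ 0 := hl.resolve_right fun h => h hq
    rw [h1]
    cases y with
    | none => simp [T_none, hq]
    | some b =>
      rw [T_some]
      constructor
      · intro h
        cases h
      · intro h
        exfalso
        rw [coeff_sub, coeff_C_mul, hq, mul_zero, sub_zero] at h
        exact hp h
  · have h1 : mp p q d none = some (p.coeff d / q.coeff d) := by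
      unfold mp
      exact if_neg hq
    rw [h1]
    cases y with
    | none =>
      rw [T_none]
      constructor
      · intro h
        cases h
      · intro h
        exact absurd h hq
    | some b =>
      rw [T_some, Option.some.injEq, div_eq_iff hq, coeff_sub, coeff_C_mul, sub_eq_zero]

lemma surj [IsAlgClosed K] (hd : 1 ≤ d) (hco : IsCoprime p q)
    (hl : p.coeff d ≠ 0 ∨ q.coeff d ≠ 0) (y : Option K) : ∃ z, mp p q d z = y := by
  by_cases h : (T p q y).coeff d = 0
  · exact ⟨none, (fib_none hl y).2 h⟩
  · obtain ⟨a, ha⟩ := IsAlgClosed.exists_root (T p q y) (by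
      intro h0
      have h1 : (T p q y).natDegree = 0 := natDegree_eq_of_degree_eq_some h0
      exact h (coeff_eq_zero_of_natDegree_lt (by omega)))
    exact ⟨some a, (fib_some hco a y).2 ha⟩

end

/-- the points with a finite orbit -/
def Pre {A : Type*} (f : A → A) : Set A := {z | (Set.range fun m : ℕ => f^[m] z).Finite}

lemma pre_iff {A : Type*} (f : A → A) (z : A) : f z ∈ Pre f ↔ z ∈ Pre f := by
  unfold Pre
  rw [Set.mem_setOf_eq, Set.mem_setOf_eq]
  constructor
  · intro h
    apply (h.insert z).subset
    rintro _ ⟨m, rfl⟩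
    cases m with
    | zero => exact Or.inl rfl
    | succ m =>
      right
      exact ⟨m, by simp only [Function.iterate_succ_apply]⟩
  · intro h
    apply h.subset
    rintro _ ⟨m, rfl⟩
    exact ⟨m + 1, by simp only [Function.iterate_succ_apply]⟩

lemma pre_fix {A : Type*} (f : A → A) (z : A) (h : f z = z) : z ∈ Pre f := by
  unfold Pre
  rw [Set.mem_setOf_eq]
  apply (Set.finite_singleton z).subset
  rintro _ ⟨m, rfl⟩
  exact Function.iterate_fixed h m

/-- finite completely invariant sets are permuted without other preimages -/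
lemma unique_pre {A : Type*} (f : A → A) (hs : ∀ y, ∃ z, f z = y) (hf : (Pre f).Finite) {z : A}
    (hz : z ∈ Pre f) {z' : A} (h : f z' = f z) : z' = z := by
  have hz' : z' ∈ Pre f := by
    rw [← pre_iff, h, pre_iff]
    exact hz
  have hfin : Finite (Pre f) := hf
  let g : Pre f → Pre f := fun x => ⟨f x.1, (pre_iff f x.1).2 x.2⟩
  have hg : Function.Surjective g := by
    intro y
    obtain ⟨x, hx⟩ := hs y.1
    refine ⟨⟨x, ?_⟩, Subtype.ext hx⟩
    rw [← pre_iff, hx]
    exact y.2
  have hi : Function.Injective g := Finite.injective_iff_surjective.2 hg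
  have := @hi ⟨z', hz'⟩ ⟨z, hz⟩ (Subtype.ext h)
  exact congrArg Subtype.val this

section

variable {K : Type*} [Field K] {p q : K[X]} {d : ℕ}

/-- a totally ramified finite point -/
lemma tot_some [IsAlgClosed K] (hp : p.natDegree ≤ d) (hq : q.natDegree ≤ d)
    (hco : IsCoprime p q) (hl : p.coeff d ≠ 0 ∨ q.coeff d ≠ 0) (a : K)
    (hu : ∀ z, mp p q d z = mp p q d (some a) → z = some a) :
    ∃ c : K, c ≠ 0 ∧ T p q (mp p q d (some a)) = C c * (X - C a) ^ d := by
  set y := mp p q d (some a) with hy
  have h1 : (T p q y).coeff d ≠ 0 := by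
    intro h
    have h2 := hu none ((fib_none hl y).2 h)
    cases h2
  have h3 : (T p q y).natDegree ≤ d := by
    unfold T
    exact (natDegree_add_le _ _).trans (max_le ((natDegree_C_mul_le _ _).trans hp)
      ((natDegree_C_mul_le _ _).trans hq))
  have h4 : (T p q y).natDegree = d := le_antisymm h3 (le_natDegree_of_ne_zero h1)
  have h0 : T p q y ≠ 0 := by
    intro h
    rw [h, coeff_zero] at h1
    exact h1 rfl
  have hsp : (T p q y).Splits := IsAlgClosed.splits _
  have h5 : (T p q y).roots = Multiset.replicate d a := by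
    rw [Multiset.eq_replicate]
    refine ⟨?_, ?_⟩
    · rw [← hsp.natDegree_eq_card_roots, h4]
    · intro b hb
      rw [mem_roots h0] at hb
      have h6 := hu (some b) ((fib_some hco b y).2 hb)
      exact Option.some.inj h6
  refine ⟨(T p q y).leadingCoeff, leadingCoeff_ne_zero.2 h0, ?_⟩
  have h7 := hsp.eq_prod_roots
  rw [h5, Multiset.map_replicate, Multiset.prod_replicate] at h7
  exact h7

/-- a totally ramified point at infinity -/
lemma tot_none [IsAlgClosed K] (hco : IsCoprime p q) (hl : p.coeff d ≠ 0 ∨ q.coeff d ≠ 0)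
    (hu : ∀ z, mp p q d z = mp p q d none → z = none) :
    ∃ c : K, T p q (mp p q d none) = C c := by
  set y := mp p q d none with hy
  by_cases h0 : (T p q y).degree = 0
  · exact ⟨_, eq_C_of_degree_eq_zero h0⟩
  · exfalso
    obtain ⟨a, ha⟩ := IsAlgClosed.exists_root (T p q y) h0
    have := hu (some a) ((fib_some hco a y).2 ha)
    cases this

lemma deriv_pow_eval (a r : K) (d : ℕ) :
    (derivative ((X - C a) ^ d)).eval r = d * (r - a) ^ (d - 1) := by
  simp [derivative_pow]

/-- three totally ramified points -/
lemma no_three [CharZero K] [IsAlgClosed K] (hd : 2 ≤ d) (hp : p.natDegree ≤ d)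
    (hq : q.natDegree ≤ d) (hco : IsCoprime p q) (hl : p.coeff d ≠ 0 ∨ q.coeff d ≠ 0)
    (a1 a2 : K) (z3 : Option K) (h12 : a1 ≠ a2) (h13 : z3 ≠ some a1) (h23 : z3 ≠ some a2)
    (hu1 : ∀ z, mp p q d z = mp p q d (some a1) → z = some a1)
    (hu2 : ∀ z, mp p q d z = mp p q d (some a2) → z = some a2)
    (hu3 : ∀ z, mp p q d z = mp p q d z3 → z = z3) : False := by
  obtain ⟨c1, hc1, e1⟩ := tot_some hp hq hco hl a1 hu1
  obtain ⟨c2, hc2, e2⟩ := tot_some hp hq hco hl a2 hu2
  have hy12 : mp p q d (some a1) ≠ mp p q d (some a2) := by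
    intro h
    exact h12 (Option.some.inj (hu2 _ h))
  have hy13 : mp p q d (some a1) ≠ mp p q d z3 := by
    intro h
    exact h13 (hu3 _ h).symm
  have hy23 : mp p q d (some a2) ≠ mp p q d z3 := by
    intro h
    exact h23 (hu3 _ h).symm
  have hrel := T_rel (p := p) (q := q) (mp p q d (some a1)) (mp p q d (some a2)) (mp p q d z3)
  have hm1 := v_det hy23
  have hm2 := v_det hy13.symm
  have hm3 := v_det hy12
  rw [e1, e2] at hrel
  have hd0 : ((d : ℕ) : K) ≠ 0 := by
    have : (d : ℕ) ≠ 0 := by omega
    exact_mod_cast this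
  have hs12 : a1 - a2 ≠ 0 := sub_ne_zero.2 h12
  have hdd : d - 1 + 1 = d := by omega
  cases z3 with
  | none =>
    obtain ⟨c3, e3⟩ := tot_none (d := d) hco hl hu3
    rw [e3] at hrel
    have h1 := congrArg (fun g : K[X] => (derivative g).eval a1) hrel
    simp only [derivative_add, derivative_mul, derivative_C, zero_mul, zero_add, mul_zero,
      add_zero, eval_add, eval_mul, eval_C, deriv_pow_eval, sub_self, derivative_zero,
      eval_zero] at h1
    rw [zero_pow (by omega), mul_zero, mul_zero, mul_zero, zero_add] at h1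
    exact mul_ne_zero hm2 (mul_ne_zero hc2 (mul_ne_zero hd0 (pow_ne_zero _ hs12))) h1
  | some a3 =>
    obtain ⟨c3, hc3, e3⟩ := tot_some hp hq hco hl a3 hu3
    rw [e3] at hrel
    have hn13 : a1 ≠ a3 := fun h => h13 (by rw [h])
    have hn23 : a2 ≠ a3 := fun h => h23 (by rw [h])
    have h1 := congrArg (fun g : K[X] => (derivative g).eval a1) hrel
    simp only [derivative_add, derivative_mul, derivative_C, zero_mul, zero_add, mul_zero,
      add_zero, eval_add, eval_mul, eval_C, deriv_pow_eval, sub_self, derivative_zero,
      eval_zero] at h1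
    rw [zero_pow (by omega), mul_zero, mul_zero, mul_zero, zero_add] at h1
    have h0 := congrArg (fun g : K[X] => g.eval a1) hrel
    simp only [eval_add, eval_mul, eval_C, eval_pow, eval_sub, eval_X, sub_self, eval_zero] at h0
    rw [zero_pow (by omega), mul_zero, mul_zero, zero_add] at h0
    set m2 := v1 (mp p q d (some a3)) * v2 (mp p q d (some a1)) -
      v2 (mp p q d (some a3)) * v1 (mp p q d (some a1)) with hm2d
    set m3 := v1 (mp p q d (some a1)) * v2 (mp p q d (some a2)) -
      v2 (mp p q d (some a1)) * v1 (mp p q d (some a2)) with hm3d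
    have h2 : m2 * c2 * (a1 - a2) ^ (d - 1) + m3 * c3 * (a1 - a3) ^ (d - 1) = 0 := by
      have h3 : (d : K) * (m2 * c2 * (a1 - a2) ^ (d - 1) + m3 * c3 * (a1 - a3) ^ (d - 1)) = 0 := by
        linear_combination h1
      exact (mul_eq_zero.1 h3).resolve_left hd0
    have e2' : (a1 - a2) ^ d = (a1 - a2) ^ (d - 1) * (a1 - a2) := by rw [← pow_succ, hdd]
    have e3' : (a1 - a3) ^ d = (a1 - a3) ^ (d - 1) * (a1 - a3) := by rw [← pow_succ, hdd]
    rw [e2', e3'] at h0
    have h4 : m3 * c3 * (a1 - a3) ^ (d - 1) * (a2 - a3) = 0 := by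
      linear_combination h0 - (a1 - a2) * h2
    exact mul_ne_zero (mul_ne_zero (mul_ne_zero hm3 hc3) (pow_ne_zero _ (sub_ne_zero.2 hn13)))
      (sub_ne_zero.2 hn23) h4

/-- **there are infinitely many preperiodic points** -/
theorem infinite_pre [CharZero K] [IsAlgClosed K] (hd : 2 ≤ d) (hp : p.natDegree ≤ d)
    (hq : q.natDegree ≤ d) (hco : IsCoprime p q) (hl : p.coeff d ≠ 0 ∨ q.coeff d ≠ 0) :
    (Pre (mp p q d)).Infinite := by
  classical
  intro hfin
  have hsur := surj (d := d) (by omega) hco hl
  have hu : ∀ z ∈ Pre (mp p q d), ∀ z', mp p q d z' = mp p q d z → z' = z :=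
    fun z hz z' h => unique_pre _ hsur hfin hz h
  set F := p - X * q with hF
  have hfix : ∀ a, F.eval a = 0 → mp p q d (some a) = some a := by
    intro a ha
    rw [fib_some hco, T_some]
    rw [hF, eval_sub, eval_mul, eval_X] at ha
    rw [eval_sub, eval_mul, eval_C]
    exact ha
  have hS : ∀ a, F.eval a = 0 → some a ∈ Pre (mp p q d) := fun a ha => pre_fix _ _ (hfix a ha)
  have hder : ∀ a, F.eval a = 0 → (derivative F).eval a ≠ 0 := by
    intro a ha h
    obtain ⟨c, _, hc⟩ := tot_some hp hq hco hl a (hu _ (hS a ha))
    rw [hfix a ha, T_some] at hc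
    have h1 : F = C c * (X - C a) ^ d - (X - C a) * q := by
      rw [← hc, hF]
      ring
    rw [h1] at h
    simp only [derivative_sub, derivative_mul, derivative_C, zero_mul, zero_add, derivative_X,
      sub_zero, one_mul, eval_sub, eval_add, eval_mul, eval_C, deriv_pow_eval, sub_self,
      eval_X] at h
    rw [zero_pow (by omega), mul_zero, mul_zero, add_zero, zero_sub, neg_eq_zero] at h
    rw [hF, eval_sub, eval_mul, h, mul_zero, sub_zero] at ha
    exact not_both hco a ha h
  have hsep : F.Separable := by
    unfold Separable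
    refine (isCoprime_iff_aeval_ne_zero_of_isAlgClosed (k := K) K _ _).mpr ?_
    intro a
    by_contra hcon
    push Not at hcon
    simp only [coe_aeval_eq_eval] at hcon
    exact hder a hcon.1 hcon.2
  have hF0 : F ≠ 0 := hsep.ne_zero
  have hnd : F.roots.Nodup := nodup_roots hsep
  have hcard : F.roots.toFinset.card = F.natDegree := by
    rw [Multiset.toFinset_card_of_nodup hnd, ← (IsAlgClosed.splits F).natDegree_eq_card_roots]
  have hroot : ∀ a ∈ F.roots.toFinset, F.eval a = 0 := by
    intro a ha
    rw [Multiset.mem_toFinset, mem_roots hF0] at ha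
    exact ha
  by_cases hqd : q.coeff d = 0
  · have hnone : mp p q d none = none := by
      rw [fib_none hl, T_none]
      exact hqd
    have hnS : none ∈ Pre (mp p q d) := pre_fix _ _ hnone
    obtain ⟨c, hc⟩ := tot_none (d := d) hco hl (hu _ hnS)
    rw [hnone, T_none] at hc
    have hpd : p.coeff d ≠ 0 := hl.resolve_right fun h => h hqd
    have h1 : F.coeff d ≠ 0 := by
      rw [hF, hc, coeff_sub]
      obtain ⟨e, rfl⟩ : ∃ e, d = e + 1 := ⟨d - 1, by omega⟩
      rw [coeff_X_mul, coeff_C, if_neg (by omega), sub_zero]
      exact hpd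
    have h2 : 2 ≤ F.natDegree := hd.trans (le_natDegree_of_ne_zero h1)
    obtain ⟨a1, ha1, a2, ha2, h12⟩ := Finset.one_lt_card.1 (show 1 < F.roots.toFinset.card by omega)
    exact no_three hd hp hq hco hl a1 a2 none h12 (by simp) (by simp)
      (hu _ (hS a1 (hroot a1 ha1))) (hu _ (hS a2 (hroot a2 ha2))) (hu _ hnS)
  · have h1 : F.coeff (d + 1) ≠ 0 := by
      rw [hF, coeff_sub, coeff_X_mul, coeff_eq_zero_of_natDegree_lt (show p.natDegree < d + 1 by omega),
        zero_sub, neg_ne_zero]
      exact hqd
    have h2 : 3 ≤ F.natDegree := by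
      have := le_natDegree_of_ne_zero h1
      omega
    obtain ⟨a1, ha1, a2, ha2, a3, ha3, h12, h13, h23⟩ :=
      Finset.two_lt_card.1 (show 2 < F.roots.toFinset.card by omega)
    exact no_three hd hp hq hco hl a1 a2 (some a3) h12
      (fun h => h13 (Option.some.inj h).symm) (fun h => h23 (Option.some.inj h).symm)
      (hu _ (hS a1 (hroot a1 ha1))) (hu _ (hS a2 (hroot a2 ha2))) (hu _ (hS a3 (hroot a3 ha3)))

/-- large finite stable sets -/
theorem exists_stable [CharZero K] [IsAlgClosed K] (hd : 2 ≤ d) (hp : p.natDegree ≤ d)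
    (hq : q.natDegree ≤ d) (hco : IsCoprime p q) (hl : p.coeff d ≠ 0 ∨ q.coeff d ≠ 0) (n : ℕ) :
    ∃ P : Finset (Option K), (∀ z ∈ P, mp p q d z ∈ P) ∧ n ≤ P.card := by
  classical
  obtain ⟨S, hS, hn⟩ := (infinite_pre hd hp hq hco hl).exists_subset_card_eq n
  have h1 : (⋃ z ∈ S, Set.range fun m : ℕ => (mp p q d)^[m] z).Finite :=
    S.finite_toSet.biUnion fun z hz => hS hz
  refine ⟨h1.toFinset, ?_, ?_⟩
  · intro z hz
    rw [Set.Finite.mem_toFinset, Set.mem_iUnion₂] at hz ⊢
    obtain ⟨w, hw, m, hm⟩ := hz
    refine ⟨w, hw, m + 1, ?_⟩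
    simp only at hm ⊢
    rw [Function.iterate_succ_apply', hm]
  · rw [← hn]
    apply Finset.card_le_card
    intro z hz
    rw [Set.Finite.mem_toFinset, Set.mem_iUnion₂]
    exact ⟨z, hz, 0, rfl⟩

end

end Run7.h830.SF
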