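import Pool.Agent.Q103.FS.Bdg
import Pool.Agent.Q144.SU.Crc
import Pool.Agent.Q144.SU.B1
import Pool.Agent.Y706.B13
import Pool.Agent.Run7.h830.SF.Inf

/-!
# Isotriviality over several fields of constants

A rational map over an algebraically closed field which is isotrivial over each of the fields `F i` is
isotrivial over the intersection of their algebraic closures: the cross ratios of a large finite stable
set of preperiodic points are in this intersection.

`reduce` is adapted from `Pool.Agent.Q144.SU.B.stable_reduce` (starting files).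
-/

set_option autoImplicit false

namespace Run7.h830.SF

open Pool.Agent.Q41.SU Pool.Agent.W277.UB Pool.Agent.W277.UG Pool.Agent.W277.UH
open Pool.Agent.Y706.BI (IsoAlg)
open Finset Polynomial

/-- invariance of isotriviality under the change of coordinates -/
lemma conj_forward {k K : Type*} [Field k] [Field K] [Algebra k K] [Infinite K] (d : ℕ)
    (p q : Polynomial K) (hp : p.natDegree ≤ d) (hq : q.natDegree ≤ d) (c : K)
    (h : ConjConst k p q d) : ConjConst k (pc d q c) (pc d (p - C c * q) c) d := by
  obtain ⟨a, b, c0, e, hdet, u, w, hne, hu, hw, hid⟩ := h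
  refine ⟨b + a * c, a, e + c0 * c, c0, ?_, u, w, hne, hu, hw, ?_⟩
  · intro h0
    apply hdet
    linear_combination -h0
  · apply Polynomial.eq_of_infinite_eval_eq
    apply Set.Infinite.mono (s := {y | y ≠ 0})
    · intro y hy
      have hy' : y ≠ 0 := hy
      obtain ⟨x, hx⟩ : ∃ x, x = c + y⁻¹ := ⟨_, rfl⟩
      have hxc : x - c = y⁻¹ := by rw [hx]; ring
      have h0 : x - c ≠ 0 := by
        rw [hxc]
        exact inv_ne_zero hy'
      have hxn : x ≠ c := sub_ne_zero.1 h0
      have hyx : (x - c)⁻¹ = y := by rw [hxc, inv_inv]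
      have hpq : (p - C c * q).natDegree ≤ d :=
        (natDegree_sub_le _ _).trans (max_le hp ((natDegree_C_mul_le _ _).trans hq))
      have h1 := congrArg (eval x) hid
      have e1 := pc_eval_inv d q hq c x hxn
      have e2 := pc_eval_inv d (p - C c * q) hpq c x hxn
      rw [eval_sub, eval_mul, eval_C] at e2
      rw [hyx] at e1 e2
      have e3 : ∀ g : Polynomial K, (x - c) ^ d * (Pool.Agent.W277.UH.hc d g
          (C (b + a * c) * X + C a) (C (e + c0 * c) * X + C c0)).eval y =
          (Pool.Agent.W277.UH.hc d g (C a * X + C b) (C c0 * X + C e)).eval x := by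
        intro g
        rw [hc_eval, hc_eval, ← hev_smul]
        congr 1
        have hxy : (x - c) * y = 1 := by
          rw [hxc]
          exact inv_mul_cancel₀ hy'
        ext
        · simp only [Prod.smul_fst, smul_eq_mul, eval_add, eval_mul, eval_C, eval_X]
          linear_combination (b + a * c) * hxy
        · simp only [Prod.smul_snd, smul_eq_mul, eval_add, eval_mul, eval_C, eval_X]
          linear_combination (e + c0 * c) * hxy
      rw [eval_mul, eval_mul, ← e3, ← e3] at h1
      rw [Set.mem_setOf_eq, eval_mul, eval_mul]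
      simp only [eval_add, eval_mul, eval_C] at h1 ⊢
      have e4 : a * p.eval x + b * q.eval x = (x - c) ^ d *
          ((b + a * c) * (pc d q c).eval y + a * (pc d (p - C c * q) c).eval y) := by
        linear_combination (-(b + a * c)) * e1 - a * e2
      have e5 : c0 * p.eval x + e * q.eval x = (x - c) ^ d *
          ((e + c0 * c) * (pc d q c).eval y + c0 * (pc d (p - C c * q) c).eval y) := by
        linear_combination (-(e + c0 * c)) * e1 - c0 * e2
      rw [e4, e5] at h1
      have hne0 : (x - c) ^ d * (x - c) ^ d ≠ 0 := mul_ne_zero (pow_ne_zero _ h0) (pow_ne_zero _ h0)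
      apply mul_left_cancel₀ hne0
      linear_combination h1
    · exact (Set.finite_singleton (0 : K)).infinite_compl

universe u

/-- moving infinity out of a stable set, adapted from `Pool.Agent.Q144.SU.B.stable_reduce` -/
theorem reduce {K : Type u} [Field K] [Infinite K] (d : ℕ) (hd : 2 ≤ d)
    (p q : Polynomial K) (hmax : max p.natDegree q.natDegree = d) (hco : IsCoprime p q)
    (P : Finset (Option K)) (hP : ∀ z ∈ P, ratP1 p q d z ∈ P) :
    ∃ (c : K) (P' : Finset K), (pc d (p - C c * q) c).natDegree = d ∧
      IsCoprime (pc d q c) (pc d (p - C c * q) c) ∧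
      Stab (pc d q c) (pc d (p - C c * q) c) P' ∧ P'.card = P.card := by
  classical
  have hp : p.natDegree ≤ d := by rw [← hmax]; exact le_max_left _ _
  have hq : q.natDegree ≤ d := by rw [← hmax]; exact le_max_right _ _
  have hlead : p.coeff d ≠ 0 ∨ q.coeff d ≠ 0 := by
    rcases le_total p.natDegree q.natDegree with h | h
    · right
      rw [max_eq_right h] at hmax
      rw [← hmax]
      apply leadingCoeff_ne_zero.mpr
      rintro rfl
      rw [natDegree_zero] at hmax
      omega
    · left
      rw [max_eq_left h] at hmax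
      rw [← hmax]
      apply leadingCoeff_ne_zero.mpr
      rintro rfl
      rw [natDegree_zero] at hmax
      omega
  have hX : p - X * q ≠ 0 := by
    intro h0
    have h1 : p = X * q := sub_eq_zero.mp h0
    have h2 : IsUnit q := by
      obtain ⟨a, b, hab⟩ := hco
      rw [h1] at hab
      apply IsUnit.of_mul_eq_one (a * X + b)
      rw [← hab]
      ring
    have h3 := natDegree_eq_zero_of_isUnit h2
    have h4 : p.natDegree ≤ 1 := by
      rw [h1]
      refine natDegree_mul_le.trans ?_
      rw [h3, add_zero]
      exact natDegree_X_le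
    rw [h3] at hmax
    omega
  obtain ⟨c, hc⟩ := Infinite.exists_notMem_finset
    ((P.image fun z => z.getD 0) ∪ (p - X * q).roots.toFinset)
  rw [Finset.mem_union, not_or] at hc
  have hcP : some c ∉ P := by
    intro h
    apply hc.1
    exact Finset.mem_image.mpr ⟨some c, h, rfl⟩
  have hcr : p.eval c - c * q.eval c ≠ 0 := by
    intro h
    apply hc.2
    rw [Multiset.mem_toFinset, mem_roots hX, IsRoot.def, eval_sub, eval_mul, eval_X]
    exact h
  have hpq : (p - C c * q).natDegree ≤ d :=
    (natDegree_sub_le _ _).trans (max_le hp ((natDegree_C_mul_le _ _).trans hq))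
  have hq'd : (pc d (p - C c * q) c).natDegree = d := by
    apply le_antisymm (pc_degree _ _ _)
    apply le_natDegree_of_ne_zero
    rw [pc_coeff d _ hpq, eval_sub, eval_mul, eval_C]
    exact hcr
  have hco' := pc_coprime d (by omega) p q hp hq hco hlead c
  have hinj : Set.InjOn (phc c) (P : Set (Option K)) := by
    intro z hz z' hz' h
    rcases z with _ | x
    · rcases z' with _ | x'
      · rfl
      · exfalso
        have hx' : x' ≠ c := by
          rintro rfl
          exact hcP hz'
        have h1 : (0 : K) = (x' - c)⁻¹ := h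
        exact inv_ne_zero (sub_ne_zero.mpr hx') h1.symm
    · rcases z' with _ | x'
      · exfalso
        have hx : x ≠ c := by
          rintro rfl
          exact hcP hz
        have h1 : (x - c)⁻¹ = (0 : K) := h
        exact inv_ne_zero (sub_ne_zero.mpr hx) h1
      · have h1 : (x - c)⁻¹ = (x' - c)⁻¹ := h
        have h2 := inv_injective h1
        have h3 : x = x' := sub_left_injective h2
        rw [h3]
  have hst : ∀ y ∈ P.image (phc c), (pc d (p - C c * q) c).eval y ≠ 0 ∧
      (pc d q c).eval y / (pc d (p - C c * q) c).eval y ∈ P.image (phc c) := by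
    intro y hy
    obtain ⟨z, hz, rfl⟩ := Finset.mem_image.mp hy
    have hFz := hP z hz
    rcases z with _ | x
    · have hval : phc c (none : Option K) = 0 := rfl
      rw [hval, pc_eval_zero, pc_eval_zero, coeff_sub, coeff_C_mul]
      by_cases hqd : q.coeff d = 0
      · have hpd : p.coeff d ≠ 0 := hlead.resolve_right (fun h => h hqd)
        rw [hqd, mul_zero, sub_zero, zero_div]
        rw [ratP1_none0 p q d hqd] at hFz
        exact ⟨hpd, Finset.mem_image.mpr ⟨none, hFz, rfl⟩⟩
      · rw [ratP1_none p q d hqd] at hFz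
        have h1 : p.coeff d / q.coeff d ≠ c := by
          intro h
          rw [h] at hFz
          exact hcP hFz
        have h2 : p.coeff d - c * q.coeff d ≠ 0 := by
          intro h
          apply h1
          rw [div_eq_iff hqd]
          exact sub_eq_zero.mp h
        refine ⟨h2, Finset.mem_image.mpr ⟨_, hFz, ?_⟩⟩
        show (p.coeff d / q.coeff d - c)⁻¹ = _
        rw [div_sub' hqd, inv_div, mul_comm (q.coeff d) c]
    · have hxc : x ≠ c := by
        rintro rfl
        exact hcP hz
      have h0 : x - c ≠ 0 := sub_ne_zero.mpr hxc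
      have hval : phc c (some x) = (x - c)⁻¹ := rfl
      have e1 := pc_eval_inv d q hq c x hxc
      have e2 := pc_eval_inv d (p - C c * q) hpq c x hxc
      rw [eval_sub, eval_mul, eval_C] at e2
      rw [hval]
      have hpow : (x - c) ^ d ≠ 0 := pow_ne_zero _ h0
      have hratio : (pc d q c).eval (x - c)⁻¹ / (pc d (p - C c * q) c).eval (x - c)⁻¹ =
          q.eval x / (p.eval x - c * q.eval x) := by
        have h9 : (pc d q c).eval (x - c)⁻¹ / (pc d (p - C c * q) c).eval (x - c)⁻¹ =
            ((x - c) ^ d * (pc d q c).eval (x - c)⁻¹) /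
              ((x - c) ^ d * (pc d (p - C c * q) c).eval (x - c)⁻¹) :=
          (mul_div_mul_left _ _ hpow).symm
        rw [h9, e1, e2]
      rw [hratio]
      have hne' : p.eval x - c * q.eval x ≠ 0 →
          (pc d (p - C c * q) c).eval (x - c)⁻¹ ≠ 0 := by
        intro h h'
        rw [h', mul_zero] at e2
        exact h e2.symm
      by_cases hqx : q.eval x = 0
      · have hpx : p.eval x ≠ 0 := by
          intro hpx
          obtain ⟨a, b, hab⟩ := hco
          have := congrArg (eval x) hab
          rw [eval_add, eval_mul, eval_mul, hpx, hqx, mul_zero, mul_zero, add_zero,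
            eval_one] at this
          exact zero_ne_one this
        rw [ratP1_some0 p q d x hqx] at hFz
        refine ⟨hne' (by rw [hqx, mul_zero, sub_zero]; exact hpx),
          Finset.mem_image.mpr ⟨none, hFz, ?_⟩⟩
        rw [hqx, zero_div]
        rfl
      · rw [ratP1_some p q d x hqx] at hFz
        have h1 : p.eval x / q.eval x ≠ c := by
          intro h
          rw [h] at hFz
          exact hcP hFz
        have h2 : p.eval x - c * q.eval x ≠ 0 := by
          intro h
          apply h1
          rw [div_eq_iff hqx]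
          exact sub_eq_zero.mp h
        refine ⟨hne' h2, Finset.mem_image.mpr ⟨_, hFz, ?_⟩⟩
        show (p.eval x / q.eval x - c)⁻¹ = _
        rw [div_sub' hqx, inv_div, mul_comm (q.eval x) c]
  exact ⟨c, P.image (phc c), hq'd, hco', hst, Finset.card_image_of_injOn hinj⟩

/-- isotriviality with coefficients in the algebraic closure -/
lemma conjConst_of_isoAlg {F Ω : Type*} [Field F] [Field Ω] [Algebra F Ω] {p q : Polynomial Ω} {d : ℕ}
    (h : IsoAlg F p q d) : ConjConst (algebraicClosure F Ω) p q d := by
  obtain ⟨a, b, c, e, hdet, u, w, hne, hu, hw, hua, hwa, hid⟩ := h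
  have hl : ∀ g : Polynomial Ω, (∀ n, IsAlgebraic F (g.coeff n)) →
      ∃ g' : (algebraicClosure F Ω)[X], g'.map (algebraMap _ Ω) = g := by
    intro g hg
    have : g ∈ lifts (algebraMap (algebraicClosure F Ω) Ω) := by
      rw [lifts_iff_coeff_lifts]
      exact fun m => ⟨⟨g.coeff m, mem_algebraicClosure_iff.2 (hg m)⟩, rfl⟩
    exact (mem_lifts g).mp this
  obtain ⟨u', rfl⟩ := hl u hua
  obtain ⟨w', rfl⟩ := hl w hwa
  have hinj := (algebraMap (algebraicClosure F Ω) Ω).injective
  refine ⟨a, b, c, e, hdet, u', w', ?_, ?_, ?_, ?_⟩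
  · rcases hne with h | h
    · exact Or.inl ((Polynomial.map_ne_zero_iff hinj).mp h)
    · exact Or.inr ((Polynomial.map_ne_zero_iff hinj).mp h)
  · rw [natDegree_map] at hu
    exact hu
  · rw [natDegree_map] at hw
    exact hw
  · unfold Pool.Agent.W277.UH.hc hev
    simpa using hid

/-- **isotriviality over an intersection** -/
theorem iso_inter {k Ω ι : Type} [Field k] [Field Ω] [CharZero Ω] [IsAlgClosed Ω] [Algebra k Ω]
    (F : ι → Type) [∀ i, Field (F i)] [∀ i, Algebra (F i) Ω]
    (hint : ∀ x : Ω, (∀ i, IsAlgebraic (F i) x) → IsAlgebraic k x) (d : ℕ) (hd : 2 ≤ d)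
    (p q : Polynomial Ω) (hmax : max p.natDegree q.natDegree = d) (hco : IsCoprime p q)
    (h : ∀ i, IsoAlg (F i) p q d) : IsoAlg k p q d := by
  classical
  have hp : p.natDegree ≤ d := by rw [← hmax]; exact le_max_left _ _
  have hq : q.natDegree ≤ d := by rw [← hmax]; exact le_max_right _ _
  have hlead : p.coeff d ≠ 0 ∨ q.coeff d ≠ 0 := by
    rcases le_total p.natDegree q.natDegree with h | h
    · right
      rw [max_eq_right h] at hmax
      rw [← hmax]
      apply leadingCoeff_ne_zero.mpr
      rintro rfl
      rw [natDegree_zero] at hmax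
      omega
    · left
      rw [max_eq_left h] at hmax
      rw [← hmax]
      apply leadingCoeff_ne_zero.mpr
      rintro rfl
      rw [natDegree_zero] at hmax
      omega
  obtain ⟨P, hP, hcard⟩ := exists_stable hd hp hq hco hlead (3 * d + 4)
  have hP' : ∀ z ∈ P, ratP1 p q d z ∈ P := by
    intro z hz
    have h1 : ratP1 p q d z = mp p q d z := by cases z <;> rfl
    rw [h1]
    exact hP z hz
  obtain ⟨c, P', hq', hco', hst, hcard'⟩ := reduce d hd p q hmax hco P hP'
  have hcr : ∀ x0 ∈ P', ∀ x1 ∈ P', ∀ x2 ∈ P', ∀ x ∈ P', x0 ≠ x1 → x0 ≠ x2 → x1 ≠ x2 → x ≠ x2 →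
      x ≠ x0 → IsAlgebraic k (((x - x0) * (x1 - x2)) / ((x - x2) * (x1 - x0))) := by
    intro x0 h0 x1 h1 x2 h2 x hx n1 n2 n3 n4 n5
    apply hint
    intro i
    have hcl : IsAlgClosed (algebraicClosure (F i) Ω) := IsAlgClosure.isAlgClosed (F i)
    have hc := conj_forward d p q hp hq c (conjConst_of_isoAlg (h i))
    obtain ⟨s, hs⟩ := Pool.Agent.Q144.SU.crc (algebraicClosure (F i) Ω) Ω d (pc d q c)
      (pc d (p - C c * q) c) hd (pc_degree _ _ _) hq'.le (by
        rw [hq']
        exact max_eq_right (pc_degree _ _ _)) hco' hc P' hst x0 h0 x1 h1 x2 h2 x hx n1 n2 n3 n4 n5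
    rw [← hs]
    exact mem_algebraicClosure_iff.1 s.2
  have hconj : ConjConst (algebraicClosure k Ω) (pc d q c) (pc d (p - C c * q) c) d := by
    refine conj_of_cross _ _ d (pc_degree _ _ _) hq' hd hco' P' hst P' (Finset.Subset.refl _) ?_ (by
      rw [Finset.sdiff_self, Finset.card_empty]
      omega)
    intro x0 h0 x1 h1 x2 h2 x hx h01 h02 h12 hx2 hx0
    exact ⟨⟨_, mem_algebraicClosure_iff.2 (hcr x0 h0 x1 h1 x2 h2 x hx h01 h02 h12 hx2 hx0)⟩, rfl⟩
  exact Pool.Agent.Q103.FS.isoAlg_of_conjConst (conj_transfer d p q hp hq c hconj)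

/-- **a non-isotrivial family varies in one of the parameters** -/
theorem exists_dir {k : Type} [Field k] [CharZero k] {m : ℕ} (d : ℕ) (hd : 2 ≤ d)
    (p q : (AlgebraicClosure (Pool.Agent.Y706.BI.RF k m))[X])
    (hmax : max p.natDegree q.natDegree = d) (hco : IsCoprime p q) (h : ¬ IsoAlg k p q d) :
    ∃ i : Fin m, ¬ IsoAlg (Pool.Agent.Y706.BI.others k i) p q d := by
  have hcz0 : CharZero (Pool.Agent.Y706.BI.RF k m) :=
    charZero_of_injective_algebraMap (R := k) (algebraMap k _).injective
  have hcz : CharZero (AlgebraicClosure (Pool.Agent.Y706.BI.RF k m)) :=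
    charZero_of_injective_algebraMap (R := Pool.Agent.Y706.BI.RF k m)
      (algebraMap (Pool.Agent.Y706.BI.RF k m) _).injective
  by_contra hcon
  push Not at hcon
  apply h
  refine iso_inter (fun i : Fin m => Pool.Agent.Y706.BI.others k i) ?_ d hd p q hmax hco hcon
  intro x hx
  apply Pool.Agent.Y706.alg_inter (Pool.Agent.Y706.xo k m) Pool.Agent.Y706.indep_xo
  · exact Pool.Agent.Y706.alg_transfer _ Pool.Agent.Y706.rf_mem
      (Algebra.IsAlgebraic.isAlgebraic (R := Pool.Agent.Y706.RFk k m) _)
  · intro i
    exact Pool.Agent.Y706.alg_transfer (K₀ := Pool.Agent.Y706.subF k i) _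
      (Pool.Agent.Y706.sub_mem_xo i) (hx i)

end Run7.h830.SF
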