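import Pool.Agent.Q103.FS.Core0
import Pool.Agent.N891.OR.Fam
import Pool.Agent.Run7.h830.SF.Iso

/-!
# Strong uniform boundedness for the members of every non-isotrivial family of rational maps

The transfer from the generic member to the members is the one of `Pool.Agent.N820.SU.Fam` and
`Pool.Agent.N891.OR.Fam` (starting files); the bound for the generic member is
`Pool.Agent.Q103.FS.bdg` (starting files), for all rational maps.
-/

set_option autoImplicit false

namespace Run7.h830.SF

open Pool.Agent.Y706 Pool.Agent.Y706.BI Pool.Agent.Y681.BI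
open Pool.Agent.H936R2 Pool.Agent.H927R2.RD H294UB
open Pool.Agent.W275.UB hiding UD D0 Gen S_dens S_densp S_hit S_exu S_urel S_gen S_genT S_type
open Pool.Agent.W193.UB Pool.Agent.W277.UH Pool.Agent.W277.UG Pool.Agent.W277.UC NumberField Filter
  Topology
open Pool.Agent.N24.RW (ProNull)

/-- the bound -/
noncomputable def NB (B d : ℕ) : ℕ :=
  if h : 2 ≤ d then
    Classical.choose (Pool.Agent.Q103.FS.bdg.{0, 0} Pool.Agent.Q103.FS.orbB_zero.{0} 1 B d h)
  else 0

lemma nB_spec (B d : ℕ) (hd : 2 ≤ d) (hB : 1 ≤ B) (F K : Type) [Field F] [CharZero F] [Field K]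
    [Algebra F K] (t : K) (ht : Transcendental F t)
    (hfd : FiniteDimensional (IntermediateField.adjoin F {t}) K)
    (hn : Module.finrank (IntermediateField.adjoin F {t}) K ≤ 1) (p q : Polynomial K)
    (hco : IsCoprime p q) (hmax : max p.natDegree q.natDegree = d)
    (hiso : ¬ IsoAlg F (p.map (algebraMap K (AlgebraicClosure K)))
      (q.map (algebraMap K (AlgebraicClosure K))) d) :
    (PB (AlgebraicClosure K) p q d B).encard ≤ ((NB B d : ℕ) : ℕ∞) := by
  unfold NB
  rw [dif_pos hd]
  have hcp : CharP F 0 := CharP.ofCharZero F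
  have h := Classical.choose_spec
    (Pool.Agent.Q103.FS.bdg.{0, 0} Pool.Agent.Q103.FS.orbB_zero.{0} 1 B d hd)
  refine h F K t ht hfd hn ⊥ inferInstance ?_ (p.map (algebraMap K (AlgebraicClosure K)))
    (q.map (algebraMap K (AlgebraicClosure K))) ?_ ?_ ?_ ?_ hiso
  · rw [IntermediateField.finrank_bot]
    exact hB
  · intro m
    rw [Polynomial.coeff_map]
    exact IntermediateField.algebraMap_mem _ _
  · intro m
    rw [Polynomial.coeff_map]
    exact IntermediateField.algebraMap_mem _ _
  · exact (Polynomial.isCoprime_map _).2 hco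
  · rw [Polynomial.natDegree_map, Polynomial.natDegree_map]
    exact hmax

/-- the generic member has few points -/
lemma generic_few (k : Type) [Field k] [NumberField k] (d B : ℕ) (hd : 2 ≤ d) (hB : 1 ≤ B) (m : ℕ)
    (P Q : Polynomial (MvPolynomial (Fin m) k)) (hmaxP : max P.natDegree Q.natDegree = d)
    (hco : IsCoprime (generic P) (generic Q)) (hiso : ¬ IsoAlg k (genBar P) (genBar Q) d) :
    max (generic P).natDegree (generic Q).natDegree = d ∧
    (PB (AlgebraicClosure (RF k m)) (generic P) (generic Q) d B).encard ≤ ((NB B d : ℕ) : ℕ∞) := by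
  classical
  have hinj : Function.Injective (algebraMap (MvPolynomial (Fin m) k) (RF k m)) :=
    IsFractionRing.injective _ _
  have hmax : max (generic P).natDegree (generic Q).natDegree = d := by
    rw [generic, generic, Polynomial.natDegree_map_eq_of_injective hinj,
      Polynomial.natDegree_map_eq_of_injective hinj]
    exact hmaxP
  refine ⟨hmax, ?_⟩
  obtain ⟨i, hi⟩ := exists_dir d hd (genBar P) (genBar Q) (by
      rw [genBar, genBar, Polynomial.natDegree_map, Polynomial.natDegree_map]
      exact hmax) ((Polynomial.isCoprime_map _).2 hco) hiso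
  have hcz0 : CharZero (RF k m) :=
    charZero_of_injective_algebraMap (R := k) (algebraMap k _).injective
  have hczF : CharZero (others k i) := by
    constructor
    intro a b hab
    have := congrArg (algebraMap (others k i) (RF k m)) hab
    rw [map_natCast, map_natCast] at this
    exact_mod_cast this
  obtain ⟨hfd, hfr⟩ := finrank_one_of (F := others k i) (gen_sub i)
  exact nB_spec B d hd hB (others k i) (RF k m)
    (algebraMap (MvPolynomial (Fin m) k) (RF k m) (MvPolynomial.X i)) (tr_sub i) hfd hfr
    (generic P) (generic Q) hco hmax hi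

/-- **families, boxes** -/
theorem t_fam (k : Type) [Field k] [NumberField k] (J : Type) [Fintype J]
    (ω : Module.Basis J ℤ (𝓞 k)) (d B : ℕ) (hd : 2 ≤ d) (hB : 1 ≤ B) (m : ℕ)
    (P Q : Polynomial (MvPolynomial (Fin m) k)) (hmaxP : max P.natDegree Q.natDegree = d)
    (hco : IsCoprime (generic P) (generic Q)) (hiso : ¬ IsoAlg k (genBar P) (genBar Q) d) :
    AlmostAll ω m {v | v 0 ≠ 0 ∧ IsCoprime (special v P) (special v Q) ∧
      max (special v P).natDegree (special v Q).natDegree = d ∧
      (preperB (special v P) (special v Q) d B).encard ≤ ((NB B d : ℕ) : ℕ∞)} := by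
  classical
  obtain ⟨hmax, h1⟩ := generic_few k d B hd hB m P Q hmaxP hco hiso
  have h2 := fewB_of_encard (by omega) hmax hco B _ h1
  obtain ⟨s, hM⟩ := monIn_of_good (by omega) hmax hco
  have hcoe : co (generic P) (generic Q) d =
      fun i => algebraMap (MvPolynomial (Fin m) k) (RF k m) (co P Q d i) := by
    rw [co_map]
    rfl
  rw [hcoe] at h2 hM
  have h3 := Pool.Agent.Y706.paramB ω (AlgebraicClosure k) hd (co P Q d) hM h2
  refine Pool.Agent.W275.ND.ratioV ω (ι := Fin (m + 1)) _ ?_
  intro ε hε
  refine (h3 ε hε).mono ?_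
  intro w hw hcon
  apply hw
  obtain ⟨g1, ⟨s', g2⟩, g3⟩ := hcon
  have htp : (fun i => MvPolynomial.eval (tp ω w) (co P Q d i)) =
      co (P.map (MvPolynomial.eval (tp ω w))) (Q.map (MvPolynomial.eval (tp ω w))) d := by
    rw [co_map]
  rw [htp] at g2 g3
  set p := P.map (MvPolynomial.eval (tp ω w)) with hp
  set q := Q.map (MvPolynomial.eval (tp ω w)) with hq
  have hpd : p.natDegree ≤ d := Polynomial.natDegree_map_le.trans ((le_max_left _ _).trans hmaxP.le)
  have hqd : q.natDegree ≤ d := Polynomial.natDegree_map_le.trans ((le_max_right _ _).trans hmaxP.le)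
  obtain ⟨hco', hmax'⟩ := of_monIn hpd hqd g2
  have g4 := encard_of_fewB (by omega) hmax' hco' hB _ g3
  refine ⟨g1, hco', hmax', ?_⟩
  have hsub : preperB p q d B ⊆ PB (AlgebraicClosure k) p q d B := by
    rintro z ⟨hz1, hz2⟩
    refine ⟨hz1, ?_⟩
    intro x hx
    have hint : IsIntegral k x := (Algebra.IsAlgebraic.isAlgebraic (R := k) x).isIntegral
    refine ⟨IntermediateField.adjoin k {x}, IntermediateField.adjoin.finiteDimensional hint, ?_,
      IntermediateField.mem_adjoin_simple_self k x⟩
    rw [IntermediateField.adjoin.finrank hint]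
    exact hz2 x hx
  exact (Set.encard_le_encard hsub).trans g4

/-- **families, pronull exceptional sets** -/
theorem t_famp (k : Type) [Field k] [NumberField k] (J : Type) [Fintype J]
    (ω : Module.Basis J ℤ (𝓞 k)) (d B : ℕ) (hd : 2 ≤ d) (hB : 1 ≤ B) (m : ℕ)
    (P Q : Polynomial (MvPolynomial (Fin m) k)) (hmaxP : max P.natDegree Q.natDegree = d)
    (hco : IsCoprime (generic P) (generic Q)) (hiso : ¬ IsoAlg k (genBar P) (genBar Q) d) :
    ProNull {w : Fin (m + 1) × J → ℤ | ¬ (vec ω w 0 ≠ 0 ∧
      IsCoprime (P.map (MvPolynomial.eval (tp ω w))) (Q.map (MvPolynomial.eval (tp ω w))) ∧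
      max (P.map (MvPolynomial.eval (tp ω w))).natDegree
        (Q.map (MvPolynomial.eval (tp ω w))).natDegree = d ∧
      (preperB (P.map (MvPolynomial.eval (tp ω w))) (Q.map (MvPolynomial.eval (tp ω w)))
        d B).encard ≤ ((NB B d : ℕ) : ℕ∞))} := by
  classical
  obtain ⟨hmax, h1⟩ := generic_few k d B hd hB m P Q hmaxP hco hiso
  have h2 := fewB_of_encard (by omega) hmax hco B _ h1
  obtain ⟨s, hM⟩ := monIn_of_good (by omega) hmax hco
  have hcoe : co (generic P) (generic Q) d =
      fun i => algebraMap (MvPolynomial (Fin m) k) (RF k m) (co P Q d i) := by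
    rw [co_map]
    rfl
  rw [hcoe] at h2 hM
  have h3 := Pool.Agent.N891.OY.proNull_of fun {_} =>
    Pool.Agent.N455.TX.paramB ω (AlgebraicClosure k) hd (co P Q d) hM h2
  refine Pool.Agent.N891.OY.proNull_mono h3 ?_
  intro w hw hcon
  apply hw
  obtain ⟨g1, ⟨s', g2⟩, g3⟩ := hcon
  have htp : (fun i => MvPolynomial.eval (tp ω w) (co P Q d i)) =
      co (P.map (MvPolynomial.eval (tp ω w))) (Q.map (MvPolynomial.eval (tp ω w))) d := by
    rw [co_map]
  rw [htp] at g2 g3
  set p := P.map (MvPolynomial.eval (tp ω w)) with hp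
  set q := Q.map (MvPolynomial.eval (tp ω w)) with hq
  have hpd : p.natDegree ≤ d := Polynomial.natDegree_map_le.trans ((le_max_left _ _).trans hmaxP.le)
  have hqd : q.natDegree ≤ d := Polynomial.natDegree_map_le.trans ((le_max_right _ _).trans hmaxP.le)
  obtain ⟨hco', hmax'⟩ := of_monIn hpd hqd g2
  have g4 := encard_of_fewB (by omega) hmax' hco' hB _ g3
  refine ⟨g1, hco', hmax', ?_⟩
  have hsub : preperB p q d B ⊆ PB (AlgebraicClosure k) p q d B := by
    rintro z ⟨hz1, hz2⟩
    refine ⟨hz1, ?_⟩
    intro x hx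
    have hint : IsIntegral k x := (Algebra.IsAlgebraic.isAlgebraic (R := k) x).isIntegral
    refine ⟨IntermediateField.adjoin k {x}, IntermediateField.adjoin.finiteDimensional hint, ?_,
      IntermediateField.mem_adjoin_simple_self k x⟩
    rw [IntermediateField.adjoin.finrank hint]
    exact hz2 x hx
  exact (Set.encard_le_encard hsub).trans g4

end Run7.h830.SF
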