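import Pool.Agent.R323.PN.G
import Pool.Agent.Y706.BI.Stm2

/-!
# The preperiodic points of the symmetric powers of a rational map

The bound of `Pool.Agent.R323.PN.SS_le` (starting files) for the preperiodic points of the symmetric
powers in terms of the preperiodic points of bounded degree of the map, for maps given by a fraction of
polynomials of one variable.
-/

set_option autoImplicit false

namespace Run7.h830.SF.Sym

open Polynomial Pool.Agent.R323 Pool.Agent.R323.PN
open Pool.Agent.W277.UH (ratP1)
open Pool.Agent.Y706.BI (preperB)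

/-- the pair of binary forms given by two polynomials -/
noncomputable def cf {K : Type*} [Field K] (p q : K[X]) (d : ℕ) : Fin 2 → Fin (d + 1) → K :=
  fun i j => if i = 0 then p.coeff j else q.coeff j

/-- the affine coordinate -/
noncomputable def af {K : Type*} [Field K] (v : Fin 2 → K) : Option K := by
  classical exact if v 1 = 0 then none else some (v 0 / v 1)

lemma sum_eval {K : Type*} [Field K] {d : ℕ} {p : K[X]} (hp : p.natDegree ≤ d) (a b : K)
    (hb : b ≠ 0) : ∑ j : Fin (d + 1), p.coeff j * a ^ (j : ℕ) * b ^ (d - (j : ℕ)) =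
      b ^ d * p.eval (a / b) := by
  rw [Polynomial.eval_eq_sum_range' (Nat.lt_succ_of_le hp), Finset.mul_sum,
    ← Fin.sum_univ_eq_sum_range (fun j => b ^ d * (p.coeff j * (a / b) ^ j))]
  refine Finset.sum_congr rfl fun j _ => ?_
  have h1 : b ^ d = b ^ (j : ℕ) * b ^ (d - (j : ℕ)) := by
    rw [← pow_add]
    congr 1
    have := j.2
    omega
  rw [h1, div_pow]
  field_simp

lemma sum_inf {K : Type*} [Field K] {d : ℕ} (p : K[X]) (a : K) :
    ∑ j : Fin (d + 1), p.coeff j * a ^ (j : ℕ) * (0 : K) ^ (d - (j : ℕ)) = p.coeff d * a ^ d := by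
  rw [Finset.sum_eq_single (Fin.last d)]
  · simp
  · intro j _ hj
    have h1 : (j : ℕ) < d := by
      have := j.2
      have h2 : (j : ℕ) ≠ d := fun h => hj (Fin.ext h)
      omega
    rw [zero_pow (by omega), mul_zero]
  · intro h
    exact absurd (Finset.mem_univ _) h

lemma af_ac {K : Type*} [Field K] {d : ℕ} {p q : K[X]} (hp : p.natDegree ≤ d)
    (hq : q.natDegree ≤ d) {v : Fin 2 → K} (hv : v ≠ 0) :
    af (ac (cf p q d) v) = ratP1 p q d (af v) := by
  classical
  have e0 : ac (cf p q d) v 0 = ∑ j : Fin (d + 1), p.coeff j * v 0 ^ (j : ℕ) * v 1 ^ (d - (j : ℕ)) :=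
    rfl
  have e1 : ac (cf p q d) v 1 = ∑ j : Fin (d + 1), q.coeff j * v 0 ^ (j : ℕ) * v 1 ^ (d - (j : ℕ)) :=
    rfl
  by_cases h1 : v 1 = 0
  · have h0 : v 0 ≠ 0 := by
      intro h0
      apply hv
      funext i
      fin_cases i
      · exact h0
      · exact h1
    rw [h1, sum_inf] at e0 e1
    have h2 : af v = none := if_pos h1
    rw [h2]
    have hp0 : v 0 ^ d ≠ 0 := pow_ne_zero _ h0
    by_cases h3 : q.coeff d = 0
    · have h4 : ratP1 p q d none = none := if_pos h3
      rw [h4]
      refine if_pos ?_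
      rw [e1, h3, zero_mul]
    · have h4 : ratP1 p q d none = some (p.coeff d / q.coeff d) := if_neg h3
      rw [h4]
      have h5 : af (ac (cf p q d) v) = some (ac (cf p q d) v 0 / ac (cf p q d) v 1) := by
        refine if_neg ?_
        rw [e1]
        exact mul_ne_zero h3 hp0
      rw [h5, e0, e1, mul_div_mul_right _ _ hp0]
  · rw [sum_eval hp _ _ h1] at e0
    rw [sum_eval hq _ _ h1] at e1
    have h2 : af v = some (v 0 / v 1) := if_neg h1
    rw [h2]
    have hp0 : v 1 ^ d ≠ 0 := pow_ne_zero _ h1
    by_cases h3 : q.eval (v 0 / v 1) = 0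
    · have h4 : ratP1 p q d (some (v 0 / v 1)) = none := if_pos h3
      rw [h4]
      refine if_pos ?_
      rw [e1, h3, mul_zero]
    · have h4 : ratP1 p q d (some (v 0 / v 1)) =
          some (p.eval (v 0 / v 1) / q.eval (v 0 / v 1)) := if_neg h3
      rw [h4]
      have h5 : af (ac (cf p q d) v) = some (ac (cf p q d) v 0 / ac (cf p q d) v 1) := by
        refine if_neg ?_
        rw [e1]
        exact mul_ne_zero hp0 h3
      rw [h5, e0, e1, mul_div_mul_left _ _ hp0]

/-- no common zero -/
lemma ac_ne {K : Type*} [Field K] {d : ℕ} {p q : K[X]} (hco : IsCoprime p q)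
    (hmax : max p.natDegree q.natDegree = d) {v : Fin 2 → K}
    (h : ac (cf p q d) v = 0) (hd : 1 ≤ d) : v = 0 := by
  classical
  have hp : p.natDegree ≤ d := by rw [← hmax]; exact le_max_left _ _
  have hq : q.natDegree ≤ d := by rw [← hmax]; exact le_max_right _ _
  have e0 : ac (cf p q d) v 0 = ∑ j : Fin (d + 1), p.coeff j * v 0 ^ (j : ℕ) * v 1 ^ (d - (j : ℕ)) :=
    rfl
  have e1 : ac (cf p q d) v 1 = ∑ j : Fin (d + 1), q.coeff j * v 0 ^ (j : ℕ) * v 1 ^ (d - (j : ℕ)) :=
    rfl
  rw [h] at e0 e1
  by_cases h1 : v 1 = 0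
  · rw [h1, sum_inf] at e0 e1
    have h0 : v 0 = 0 := by
      by_contra h0
      have hp0 : v 0 ^ d ≠ 0 := pow_ne_zero _ h0
      have a0 : p.coeff d = 0 := (mul_eq_zero.1 e0.symm).resolve_right hp0
      have a1 : q.coeff d = 0 := (mul_eq_zero.1 e1.symm).resolve_right hp0
      rcases le_total p.natDegree q.natDegree with h | h
      · rw [max_eq_right h] at hmax
        rw [← hmax] at a1
        have : q = 0 := leadingCoeff_eq_zero.1 a1
        rw [this, natDegree_zero] at hmax
        omega
      · rw [max_eq_left h] at hmax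
        rw [← hmax] at a0
        have : p = 0 := leadingCoeff_eq_zero.1 a0
        rw [this, natDegree_zero] at hmax
        omega
    funext i
    fin_cases i
    · exact h0
    · exact h1
  · exfalso
    rw [sum_eval hp _ _ h1] at e0
    rw [sum_eval hq _ _ h1] at e1
    have hp0 : v 1 ^ d ≠ 0 := pow_ne_zero _ h1
    have a0 : p.eval (v 0 / v 1) = 0 := (mul_eq_zero.1 e0.symm).resolve_left hp0
    have a1 : q.eval (v 0 / v 1) = 0 := (mul_eq_zero.1 e1.symm).resolve_left hp0
    obtain ⟨a, b, hab⟩ := hco
    have := congrArg (eval (v 0 / v 1)) hab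
    rw [eval_add, eval_mul, eval_mul, a0, a1, mul_zero, mul_zero, add_zero, eval_one] at this
    exact zero_ne_one this

lemma ac_iter_ne {K : Type*} [Field K] {d : ℕ} {p q : K[X]} (hco : IsCoprime p q)
    (hmax : max p.natDegree q.natDegree = d) (hd : 1 ≤ d) {v : Fin 2 → K} (hv : v ≠ 0) (n : ℕ) :
    (ac (cf p q d))^[n] v ≠ 0 := by
  induction n with
  | zero => exact hv
  | succ n ih =>
    rw [Function.iterate_succ_apply']
    exact fun h => ih (ac_ne hco hmax h hd)

lemma af_iter {K : Type*} [Field K] {d : ℕ} {p q : K[X]} (hco : IsCoprime p q)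
    (hmax : max p.natDegree q.natDegree = d) (hd : 1 ≤ d) {v : Fin 2 → K} (hv : v ≠ 0) (n : ℕ) :
    af ((ac (cf p q d))^[n] v) = (ratP1 p q d)^[n] (af v) := by
  have hp : p.natDegree ≤ d := by rw [← hmax]; exact le_max_left _ _
  have hq : q.natDegree ≤ d := by rw [← hmax]; exact le_max_right _ _
  induction n with
  | zero => rfl
  | succ n ih =>
    rw [Function.iterate_succ_apply', Function.iterate_succ_apply', ← ih]
    exact af_ac hp hq (ac_iter_ne hco hmax hd hv n)

lemma af_smul {K : Type*} [Field K] {c : K} (hc : c ≠ 0) (v : Fin 2 → K) : af (c • v) = af v := by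
  classical
  by_cases h1 : v 1 = 0
  · have h2 : (c • v) 1 = 0 := by rw [Pi.smul_apply, h1, smul_zero]
    have e1 : af (c • v) = none := if_pos h2
    have e2 : af v = none := if_pos h1
    rw [e1, e2]
  · have h2 : (c • v) 1 ≠ 0 := by
      rw [Pi.smul_apply, smul_eq_mul]
      exact mul_ne_zero hc h1
    have e1 : af (c • v) = some ((c • v) 0 / (c • v) 1) := if_neg h2
    have e2 : af v = some (v 0 / v 1) := if_neg h1
    rw [e1, e2, Pi.smul_apply, Pi.smul_apply, smul_eq_mul, smul_eq_mul, mul_div_mul_left _ _ hc]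

lemma af_inj {K : Type*} [Field K] {v w : Fin 2 → K} (hw : w ≠ 0) (h : af v = af w) :
    ∃ c : K, c • w = v := by
  classical
  by_cases h1 : v 1 = 0
  · have e1 : af v = none := if_pos h1
    have h2 : w 1 = 0 := by
      by_contra h2
      have e2 : af w = some (w 0 / w 1) := if_neg h2
      rw [e1, e2] at h
      exact absurd h (by simp)
    have h0 : w 0 ≠ 0 := by
      intro h0
      apply hw
      funext i
      fin_cases i
      · exact h0
      · exact h2
    refine ⟨v 0 / w 0, ?_⟩
    funext i
    fin_cases i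
    · show v 0 / w 0 * w 0 = v 0
      exact div_mul_cancel₀ _ h0
    · show v 0 / w 0 * w 1 = v 1
      rw [h1, h2, mul_zero]
  · have e1 : af v = some (v 0 / v 1) := if_neg h1
    have h2 : w 1 ≠ 0 := by
      intro h2
      have e2 : af w = none := if_pos h2
      rw [e1, e2] at h
      exact absurd h (by simp)
    have e2 : af w = some (w 0 / w 1) := if_neg h2
    rw [e1, e2] at h
    have h3 : v 0 / v 1 = w 0 / w 1 := Option.some.inj h
    refine ⟨v 1 / w 1, ?_⟩
    funext i
    fin_cases i
    · show v 1 / w 1 * w 0 = v 0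
      rw [div_eq_div_iff h1 h2] at h3
      rw [div_mul_eq_mul_div, div_eq_iff h2]
      linear_combination -h3
    · show v 1 / w 1 * w 1 = v 1
      exact div_mul_cancel₀ _ h2

lemma orbit_finite {α : Type*} (f : α → α) (z : α) {m k : ℕ} (hmk : m < k)
    (h : f^[k] z = f^[m] z) : (Set.range fun n : ℕ => f^[n] z).Finite := by
  classical
  refine ((Finset.range k).image fun n => f^[n] z).finite_toSet.subset ?_
  rintro _ ⟨n, rfl⟩
  rw [Finset.coe_image]
  induction n using Nat.strong_induction_on with
  | _ n ih =>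
    rcases Nat.lt_or_ge n k with hn | hn
    · exact ⟨n, by simpa using hn, rfl⟩
    · obtain ⟨e, rfl⟩ := Nat.exists_eq_add_of_le' hn
      have h1 : f^[e + k] z = f^[e + m] z := by
        rw [Function.iterate_add_apply, h, ← Function.iterate_add_apply]
      show f^[e + k] z ∈ _
      rw [h1]
      exact ih (e + m) (by omega)

lemma ratP1_map {K L : Type*} [Field K] [Field L] (σ : K →+* L) (p q : K[X]) (d : ℕ)
    (z : Option K) : (ratP1 p q d z).map σ = ratP1 (p.map σ) (q.map σ) d (z.map σ) := by
  classical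
  rcases z with _ | x
  · by_cases h : q.coeff d = 0
    · have e1 : ratP1 p q d none = none := if_pos h
      have e2 : ratP1 (p.map σ) (q.map σ) d none = none := if_pos (by rw [coeff_map, h, map_zero])
      rw [e1]
      exact e2.symm
    · have e1 : ratP1 p q d none = some (p.coeff d / q.coeff d) := if_neg h
      have e2 : ratP1 (p.map σ) (q.map σ) d none =
          some ((p.map σ).coeff d / (q.map σ).coeff d) := if_neg (by
            rw [coeff_map]
            exact fun h0 => h ((map_eq_zero σ).1 h0))
      rw [e1]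
      refine Eq.trans ?_ e2.symm
      rw [coeff_map, coeff_map, ← map_div₀]
      rfl
  · have f1 : (q.map σ).eval (σ x) = σ (q.eval x) := by rw [eval_map, eval₂_hom]
    have f2 : (p.map σ).eval (σ x) = σ (p.eval x) := by rw [eval_map, eval₂_hom]
    by_cases h : q.eval x = 0
    · have e1 : ratP1 p q d (some x) = none := if_pos h
      have e2 : ratP1 (p.map σ) (q.map σ) d (some (σ x)) = none :=
        if_pos (by rw [f1, h, map_zero])
      rw [e1]
      exact e2.symm
    · have e1 : ratP1 p q d (some x) = some (p.eval x / q.eval x) := if_neg h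
      have e2 : ratP1 (p.map σ) (q.map σ) d (some (σ x)) =
          some ((p.map σ).eval (σ x) / (q.map σ).eval (σ x)) := if_neg (by
            rw [f1]
            exact fun h0 => h ((map_eq_zero σ).1 h0))
      rw [e1]
      refine Eq.trans ?_ e2.symm
      rw [f1, f2, ← map_div₀]
      rfl

lemma ratP1_map_iter {K L : Type*} [Field K] [Field L] (σ : K →+* L) (p q : K[X]) (d n : ℕ)
    (z : Option K) : ((ratP1 p q d)^[n] z).map σ = (ratP1 (p.map σ) (q.map σ) d)^[n] (z.map σ) := by
  induction n with
  | zero => rfl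
  | succ n ih =>
    rw [Function.iterate_succ_apply', Function.iterate_succ_apply', ratP1_map, ih]

lemma deg_le_of_mem (K E : IntermediateField ℚ Qb) [NumberField K] (hKE : K ≤ E)
    [FiniteDimensional ℚ E] {B : ℕ} (h : Module.finrank ℚ E ≤ B * Module.finrank ℚ K) {y : Qb}
    (hy : y ∈ E) : (minpoly K y).natDegree ≤ B := by
  have h1 : FiniteDimensional ℚ (IntermediateField.extendScalars hKE) := by assumption
  have h2 : FiniteDimensional K (IntermediateField.extendScalars hKE) :=
    Module.Finite.of_restrictScalars_finite ℚ K _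
  have h3 := Module.finrank_mul_finrank ℚ K (IntermediateField.extendScalars hKE)
  have h4 : Module.finrank ℚ (IntermediateField.extendScalars hKE) = Module.finrank ℚ E := rfl
  have h5 : Module.finrank K (IntermediateField.extendScalars hKE) ≤ B := by
    have h6 : 0 < Module.finrank ℚ K := Module.finrank_pos
    rw [h4] at h3
    rw [← h3, mul_comm] at h
    exact Nat.le_of_mul_le_mul_right h h6
  have h7 := minpoly.natDegree_le (A := K) (⟨y, hy⟩ : IntermediateField.extendScalars hKE)
  have h8 := IntermediateField.minpoly_eq (K := K) (⟨y, hy⟩ : IntermediateField.extendScalars hKE)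
  rw [h8] at h7
  exact h7.trans h5

theorem TT_le (K : IntermediateField ℚ Qb) [NumberField K] {d B : ℕ} (hd : 1 ≤ d) (p q : K[X])
    (hco : IsCoprime p q) (hmax : max p.natDegree q.natDegree = d) :
    (TT K (fun i j => ((cf p q d i j : K) : Qb)) B).encard ≤ (preperB p q d B).encard := by
  classical
  have hal : Algebra.IsAlgebraic ℚ Qb := AlgebraicClosure.isAlgebraic ℚ
  have hcl : IsAlgClosure K Qb := ⟨inferInstance, Algebra.IsAlgebraic.tower_top (K := ℚ) K⟩
  let σ : Qb ≃ₐ[K] AlgebraicClosure K := IsAlgClosure.equiv K Qb (AlgebraicClosure K)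
  have hF : (fun i j => ((cf p q d i j : K) : Qb)) =
      cf (p.map (algebraMap K Qb)) (q.map (algebraMap K Qb)) d := by
    funext i j
    unfold cf
    split_ifs
    · rw [coeff_map]
      rfl
    · rw [coeff_map]
      rfl
  rw [hF]
  have hco' : IsCoprime (p.map (algebraMap K Qb)) (q.map (algebraMap K Qb)) :=
    hco.map (Polynomial.mapRingHom (algebraMap K Qb))
  have hmax' : max (p.map (algebraMap K Qb)).natDegree (q.map (algebraMap K Qb)).natDegree = d := by
    rw [natDegree_map, natDegree_map]
    exact hmax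
  have hinj : Function.Injective (fun P : Projectivization Qb (Fin 2 → Qb) =>
      (af P.rep).map (σ : Qb → AlgebraicClosure K)) := by
    intro P Q h
    have h1 : af P.rep = af Q.rep := Option.map_injective σ.injective h
    obtain ⟨c, hc⟩ := af_inj Q.rep_nonzero h1
    rw [← P.mk_rep, ← Q.mk_rep, Projectivization.mk_eq_mk_iff']
    exact ⟨c, hc⟩
  rw [← hinj.encard_image]
  refine Set.encard_le_encard ?_
  rintro _ ⟨P, ⟨⟨m, k, hmk, c, hc, h⟩, E, hKE, hE, hEB, w, hw, c', hc', hP⟩, rfl⟩
  have h1 := congrArg af h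
  rw [af_smul hc, af_iter hco' hmax' hd P.rep_nonzero, af_iter hco' hmax' hd P.rep_nonzero] at h1
  refine ⟨?_, ?_⟩
  · apply orbit_finite _ _ hmk
    have h2 := congrArg (Option.map (σ : Qb →+* AlgebraicClosure K)) h1
    rw [ratP1_map_iter, ratP1_map_iter, Polynomial.map_map, Polynomial.map_map] at h2
    have h3 : (σ : Qb →+* AlgebraicClosure K).comp (algebraMap K Qb) =
        algebraMap K (AlgebraicClosure K) := by
      ext x
      exact σ.commutes x
    rw [h3] at h2
    exact h2
  · intro x hx
    by_cases hv : P.rep 1 = 0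
    · have h2 : af P.rep = none := if_pos hv
      simp only [h2] at hx
      exact absurd hx (by simp)
    · have h2 : af P.rep = some (P.rep 0 / P.rep 1) := if_neg hv
      simp only [h2, Option.map_some, Option.some.injEq] at hx
      rw [← hx, minpoly.algEquiv_eq]
      refine deg_le_of_mem K E hKE hEB ?_
      rw [hP, Pi.smul_apply, Pi.smul_apply, smul_eq_mul, smul_eq_mul, mul_div_mul_left _ _ hc']
      exact E.div_mem (hw 0) (hw 1)

/-- **the symmetric powers** over extensions of degree at most `D` -/
theorem sym_le (K : IntermediateField ℚ Qb) [NumberField K] {d n D M : ℕ} (hn : 1 ≤ n) (hd : 1 ≤ d)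
    (p q : K[X]) (hco : IsCoprime p q) (hmax : max p.natDegree q.natDegree = d)
    (hM : (preperB p q d (n * D)).encard ≤ (M : ℕ∞))
    (L : IntermediateField ℚ Qb) [NumberField L] (hKL : K ≤ L)
    (hL : Module.finrank ℚ L ≤ D * Module.finrank ℚ K)
    (Φ : Fin (n + 1) → MvPolynomial (Fin (n + 1)) L)
    (hΦ : ∀ (z : Fin n → Fin 2 → Qb) (j : Fin (n + 1)), MvPolynomial.aeval (pt z) (Φ j) =
      pt (fun i => ac (fun i j => ((cf p q d i j : K) : Qb)) (z i)) j) :
    (SS Φ).encard ≤ ((M ^ n : ℕ) : ℕ∞) := by
  have hF : (fun i j => ((cf p q d i j : K) : Qb)) =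
      cf (p.map (algebraMap K Qb)) (q.map (algebraMap K Qb)) d := by
    funext i j
    unfold cf
    split_ifs
    · rw [coeff_map]
      rfl
    · rw [coeff_map]
      rfl
  have hco' : IsCoprime (p.map (algebraMap K Qb)) (q.map (algebraMap K Qb)) :=
    hco.map (Polynomial.mapRingHom (algebraMap K Qb))
  have hmax' : max (p.map (algebraMap K Qb)).natDegree (q.map (algebraMap K Qb)).natDegree = d := by
    rw [natDegree_map, natDegree_map]
    exact hmax
  refine SS_le hn L (le_refl n) (F' := fun i j => ((cf p q d i j : K) : Qb)) ?_ Φ hΦ ?_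
  · intro v hv
    rw [hF] at hv
    exact ac_ne hco' hmax' hv hd
  · refine (Set.encard_le_encard ?_).trans ((TT_le K hd p q hco hmax).trans hM)
    rintro P ⟨h1, E, h2, h3, h4, h5⟩
    refine ⟨h1, E, hKL.trans h2, h3, h4.trans ?_, h5⟩
    rw [mul_assoc]
    exact Nat.mul_le_mul_left _ hL

end Run7.h830.SF.Sym
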